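import Mathlib
import Pool.Agent.H4.Kirch

set_option autoImplicit false

namespace Pool.Agent.Results.MP_ff3a4f_co.PosFrac

open Pool.Agent.H4.Kirch

theorem result (d : ℕ) (hd : 1 ≤ d) :
    ∃ g : ℝ → ℝ, Filter.Tendsto g (nhds 0) (nhds 0) ∧
      ∀ ε : ℝ, 0 ≤ ε → ∀ (N : ℕ) (A B : Finset (EuclideanSpace ℝ (Fin d))),
        Disjoint A B → A.card = N → B.card = N → d + 2 ≤ 2 * N →
        (1 - ε) * ((2 * N).choose (d + 2) : ℝ) ≤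
          ({S : Finset (EuclideanSpace ℝ (Fin d)) |
            (S : Set (EuclideanSpace ℝ (Fin d))) ⊆ ↑A ∪ ↑B ∧ S.card = d + 2 ∧
            Sep ((A : Set (EuclideanSpace ℝ (Fin d))) ∩ ↑S)
              ((B : Set (EuclideanSpace ℝ (Fin d))) ∩ ↑S)}.ncard : ℝ) →
        ∃ A' ⊆ A, ∃ B' ⊆ B,
          Sep (A' : Set (EuclideanSpace ℝ (Fin d))) (B' : Set (EuclideanSpace ℝ (Fin d))) ∧
          (1 - g ε) * N ≤ A'.card ∧ (1 - g ε) * N ≤ B'.card := by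
  refine ⟨fun ε => 4 * ((d : ℝ) + 2) ^ 2 * ε ^ (((d + 2 : ℕ) : ℝ)⁻¹), ?_,
    fun ε hε N A B h1 h2 h3 h4 h5 => main d hd ε hε N A B h1 h2 h3 h4 h5⟩
  have hp : (0 : ℝ) < ((d + 2 : ℕ) : ℝ)⁻¹ := by positivity
  have hc := (Real.continuousAt_rpow_const 0 _ (Or.inr hp.le)).tendsto
  simp only [Real.zero_rpow hp.ne'] at hc
  simpa using hc.const_mul (4 * ((d : ℝ) + 2) ^ 2)

end Pool.Agent.Results.MP_ff3a4f_co.PosFrac
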